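import Mathlib
import Pool.Agent.N758.DG.Fin

/-!
# Artin's holomorphy conjecture after a bounded base change

`Pool.Agent.H541R3.ART.Irr G` is the set of irreducible complex characters of the finite group `G`.

`Pool.Agent.H541R3.ART.ArtinData G s₀` is a family of functions with the formal properties of the
Artin L-functions of a Galois extension `E/K` with group `G` near a point `s₀ ≠ 1`: functions
`L χ` for the irreducible characters `χ` of `G` and `Lin H ψ` for the linear characters `ψ` of the
subgroups `H`, such that `L χ` is meromorphic and not identically zero near `s₀` (Brauer), `Lin H ψ`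
has no pole at `s₀` (Artin reciprocity and Hecke), and `Lin H ψ` is the product of the
`L χ ^ ⟨χ|_H, ψ⟩` (induction). In particular `Lin N 1` stands for the Dedekind zeta function of the
fixed field `E^N` of `N`.

Proof. The orders of the `L χ` at `s₀` are the multiplicities of a class function `θ` whose
restriction to every subgroup has nonnegative multiplicities against all linear characters. If `A`
is an abelian normal subgroup and `μ` a linear character of `A` with stabilizer `T`, the component
of `θ` over `μ` has the same property on `T`, and its degree times `|G : T|` is at most `θ(1)`. By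
induction this gives a normal subgroup `B` of index at most `38 ^ (θ(1) - 1)` whose commutators are
in the kernel of `θ`; the case of a group all whose abelian normal subgroups are central (`Z` the
centre) uses a normal subgroup `F` of nilpotency class two with `F / Z` completely reducible of
order `D ^ 2` and `C(F) = Z`, which satisfies `D ≤ θ(1)`, the bound of Pálfy and Wolf type
`(3 |Γ|) ^ 5 ≤ |V| ^ 12` for the irreducible solvable linear groups (starting library), and Dixon's
bound for the orders of solvable permutation groups.
-/

set_option autoImplicit false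

open Pool.Agent.H541R3.ART

/-- Let `E/K` be a Galois extension with group `G`, let `N` be a normal subgroup with `G / N`
solvable (for example `N = 1` for a solvable extension `E/K`), and let `r` be the order at `s₀ ≠ 1`
of the Dedekind zeta function of `E^N`. Then there is a normal subgroup `B ≥ N` of `G` of index at
most `38 ^ (r - 1)` such that Artin's holomorphy conjecture holds at `s₀` over the fixed field `M`
of `B` and over all larger fields: for every subgroup `H` with `N ≤ H ≤ B` and every irreducible
character `ψ` of `H` trivial on `N` the L-function of `ψ`, which is the product of the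
`L χ ^ ⟨χ|_H, ψ⟩`, has no pole at `s₀`, and it has no zero at `s₀` unless `ψ` is linear. -/
theorem Pool.Agent.Results.MP_d2121a_nt.BoundedBaseChange.result
    (G : Type) [Group G] [Finite G] (s₀ : ℂ) (A : ArtinData G s₀)
    (N : Subgroup G) [N.Normal] (hN : Group.IsSolvable (G ⧸ N)) (r : ℕ)
    (hr : meromorphicOrderAt (A.Lin N 1) s₀ = (r : WithTop ℤ)) :
    ∃ B : Subgroup G, B.Normal ∧ N ≤ B ∧ B.index ≤ 38 ^ (r - 1) ∧
      ∀ H : Subgroup G, N ≤ H → H ≤ B → ∀ ψ ∈ Irr H, (∀ n : H, (n : G) ∈ N → ψ n = ψ 1) →
      ∀ m : (G → ℂ) → ℕ,
      (∀ χ ∈ Irr G, ∑ᶠ h : H, χ h * ψ h⁻¹ = (m χ : ℂ) * (Nat.card H : ℂ)) →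
      0 ≤ meromorphicOrderAt (fun s => ∏ᶠ χ ∈ Irr G, A.L χ s ^ m χ) s₀ ∧
      (ψ 1 ≠ 1 → meromorphicOrderAt (fun s => ∏ᶠ χ ∈ Irr G, A.L χ s ^ m χ) s₀ = 0) :=
  Pool.Agent.N758.DG.art_base A N hN hr
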