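import Mathlib
import Pool.Agent.N758.DG.Fin
import Pool.Agent.R362.NearGen2
import Pool.Agent.R362.LocalArt

/-!
# Zeros and poles of Artin L-functions: multiplicities against degrees

`Pool.Agent.H541R3.ART.Irr G` is the set of irreducible complex characters of the finite group `G`.

`Pool.Agent.H541R3.ART.ArtinData G s₀` is a family of functions with the formal properties of the
Artin L-functions of a Galois extension `E/K` with group `G` near a point `s₀ ≠ 1`: functions
`L χ` for the irreducible characters `χ` of `G` and `Lin H ψ` for the linear characters `ψ` of the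
subgroups `H`, such that `L χ` is meromorphic and not identically zero near `s₀` (Brauer), `Lin H ψ`
has no pole at `s₀` (Artin reciprocity and Hecke), and `Lin H ψ` is the product of the
`L χ ^ ⟨χ|_H, ψ⟩` (induction). In particular `Lin N 1` stands for the Dedekind zeta function of the
fixed field `E^N` of `N`.

Proof. The orders of the `L χ` at `s₀` are the multiplicities of a class function `θ` whose
restriction to every subgroup has nonnegative multiplicities against all linear characters. If `A`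
is an abelian normal subgroup and `μ` a linear character of `A` with stabilizer `T`, the component
of `θ` over `μ` has the same property on `T`, and its degree times `|G : T|` is at most `θ(1)`. This
reduces the theorem to groups all whose abelian normal subgroups are central (`Z` the centre).
There a normal subgroup `F` of nilpotency class two with `F / Z` completely reducible of order
`D ^ 2` and `C(F) = Z` satisfies `D ≤ θ(1)`, and the bound of Pálfy and Wolf type
`(3 |Γ|) ^ 5 ≤ |V| ^ 12` for the irreducible solvable linear groups (starting library) gives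
`(3 |G : Z|) ^ 5 ≤ D ^ 34`, so that the degrees of all characters of `G` over a linear character
of `Z` satisfy `χ(1) ^ 5 ≤ D ^ 17`. The second part uses the bounds for the orders of zeros of
Dedekind zeta functions in the starting library.
-/

set_option autoImplicit false

namespace Pool.Agent.Results.MP_d2121a_nt.DegreeOfZeros

open NumberField Pool.Agent.H541R3.ART

/-- `Z` is the continuation of the Dedekind zeta function of `M` to all `s ≠ 1`. -/
def IsZeta (M : Type) [Field M] [NumberField M] (Z : ℂ → ℂ) : Prop :=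
  (∀ s : ℂ, s ≠ 1 → DifferentiableAt ℂ Z s) ∧ ∀ s : ℂ, 1 < s.re → Z s = dedekindZeta M s

/-- Let `E/K` be a Galois extension with group `G`, let `N` be a normal subgroup with `G / N`
solvable (for example `N = 1` for a solvable extension `E/K`), let `s₀ ≠ 1` and let `χ` be an
irreducible character of `G` trivial on `N`. Suppose that `L(s, χ)` has a zero or a pole at `s₀`.

(1) The order `r` at `s₀` of the Dedekind zeta function of `M = E^N` satisfies `χ(1) ^ 5 ≤ r ^ 17`.
So all zeros and poles of `L(s, χ)` are zeros of this zeta function whose multiplicity is at least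
`χ(1) ^ (5 / 17)`.

(2) Zero-free and pole-free regions which grow with the degree: if `0 < Re s₀ ≤ 1`, then
`χ(1) ^ (5 / 17) ≤ 1 + |s₀ - 1| log |d_M| / 2` if `s₀` is not real and `|s₀ - 1| ≤ 2`, and
`χ(1) ^ (5 / 34) ≤ 1 + √((1 - s₀) log |d_M| / 2)` if `s₀` is real. -/
theorem result (G : Type) [Group G] [Finite G] (s₀ : ℂ) (A : ArtinData G s₀)
    (N : Subgroup G) [N.Normal] (hN : Group.IsSolvable (G ⧸ N))
    (χ : G → ℂ) (hχ : χ ∈ Irr G) (hχN : ∀ n ∈ N, χ n = χ 1)
    (h0 : meromorphicOrderAt (A.L χ) s₀ ≠ 0) :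
    ∃ d : ℕ, χ 1 = d ∧
      (∀ r : ℕ, meromorphicOrderAt (A.Lin N 1) s₀ = (r : WithTop ℤ) → d ^ 5 ≤ r ^ 17) ∧
      ∀ (M : Type) [Field M] [NumberField M] (Z : ℂ → ℂ), 1 < Module.finrank ℚ M → IsZeta M Z →
        meromorphicOrderAt (A.Lin N 1) s₀ = meromorphicOrderAt Z s₀ →
        s₀ ≠ 1 → 0 < s₀.re → s₀.re ≤ 1 →
        (s₀.im ≠ 0 → ‖s₀ - 1‖ ≤ 2 →
          (d : ℝ) ^ (5 / 17 : ℝ) ≤ 1 + ‖s₀ - 1‖ * Real.log |(discr M : ℝ)| / 2) ∧
        (s₀.im = 0 →
          (d : ℝ) ^ (5 / 34 : ℝ) ≤ 1 + Real.sqrt ((1 - s₀.re) * Real.log |(discr M : ℝ)| / 2)) := by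
  obtain ⟨r, hr'⟩ := A.isHeilbronn.mult N 1
  have hr : meromorphicOrderAt (A.Lin N 1) s₀ = (r : WithTop ℤ) := Pool.Agent.R362.order_of_mult A hr'
  obtain ⟨d, hd, hdr⟩ := Pool.Agent.N758.DG.art_degree A N hN hr hχ hχN h0
  refine ⟨d, hd, fun r' hr' => ?_, ?_⟩
  · have h1 : (r : WithTop ℤ) = (r' : WithTop ℤ) := by rw [← hr, ← hr']
    have h2 : r = r' := by exact_mod_cast h1
    rw [← h2]
    exact hdr
  · intro M _ _ Z hn hZ hAZ hs h0 h1
    have hlog : Real.log |(discr M : ℝ)| = Pool.Agent.R362.Near.lgd M := by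
      unfold Pool.Agent.R362.Near.lgd
      rw [Nat.cast_natAbs, Int.cast_abs]
    obtain ⟨h2, h3⟩ := Pool.Agent.R362.Near.zeta_order hn hZ hs h0 h1 r (by rw [← hAZ, hr])
    have h4 : (d : ℝ) ^ 5 ≤ (r : ℝ) ^ 17 := by exact_mod_cast hdr
    have h5 : (d : ℝ) ^ (5 / 17 : ℝ) ≤ r := by
      have h6 : (d : ℝ) ^ (5 / 17 : ℝ) = ((d : ℝ) ^ 5) ^ (1 / 17 : ℝ) := by
        rw [← Real.rpow_natCast, ← Real.rpow_mul (Nat.cast_nonneg _)]
        norm_num
      have h7 : (r : ℝ) = ((r : ℝ) ^ 17) ^ (1 / 17 : ℝ) := by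
        rw [← Real.rpow_natCast, ← Real.rpow_mul (Nat.cast_nonneg _)]
        norm_num
      rw [h6, h7]
      exact Real.rpow_le_rpow (by positivity) h4 (by norm_num)
    refine ⟨fun him hle => ?_, fun him => ?_⟩
    · have h6 := (h3 him).2 hle
      rw [hlog]
      calc (d : ℝ) ^ (5 / 17 : ℝ) ≤ r := h5
        _ ≤ 1 + ‖s₀ - 1‖ * (Pool.Agent.R362.Near.lgd M / 2) := h6
        _ = _ := by ring
    · have h6 := h2 him
      rw [hlog]
      have h7 : (d : ℝ) ^ (5 / 34 : ℝ) = ((d : ℝ) ^ (5 / 17 : ℝ)) ^ (1 / 2 : ℝ) := by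
        rw [← Real.rpow_mul (Nat.cast_nonneg _)]
        norm_num
      rw [h7]
      have h8 : 0 ≤ 1 + Real.sqrt ((1 - s₀.re) * Pool.Agent.R362.Near.lgd M / 2) := by positivity
      rw [← Real.sqrt_eq_rpow]
      rw [Real.sqrt_le_left h8]
      calc (d : ℝ) ^ (5 / 17 : ℝ) ≤ r := h5
        _ ≤ _ := h6
        _ = _ := by rw [mul_div_assoc]

end Pool.Agent.Results.MP_d2121a_nt.DegreeOfZeros
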