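import Mathlib
import Pool.Agent.N850.Dur.Main
import Pool.Agent.N850.Dur.Asym

/-!
# Artin L-functions of characters of symmetric groups with a large Durfee square

`Pool.Agent.H541R3.ART.Irr G` is the set of irreducible complex characters of the finite group `G`.

`Pool.Agent.H541R3.ART.ArtinData G s₀` is a family of functions with the formal properties of the
Artin L-functions of a Galois extension `E/K` with group `G` near a point `s₀ ≠ 1`: functions
`L χ` for the irreducible characters `χ` of `G` and `Lin H ψ` for the linear characters `ψ` of the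
subgroups `H`, such that `L χ` is meromorphic and not identically zero near `s₀` (Brauer), `Lin H ψ`
has no pole at `s₀` (Artin reciprocity and Hecke), and `Lin H ψ` is the product of the
`L χ ^ ⟨χ|_H, ψ⟩` (induction). In particular `Lin ⊥ 1` stands for the Dedekind zeta function of `E`.

`Pool.Agent.N850.Art.Central j`: the group `Γ` is generated by the image of `j : S_n → Γ` and the
elements which commute with it, for example `Γ = S_n × K` for a finite group `K`.

`Pool.Agent.N850.Dur.Sc c P` is the set of the permutations of `{0, …, n - 1}` which preserve the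
colouring `c` and fix all points outside `P`.

`Pool.Agent.N850.Dur.Thick j ι t X`: `X` is a character of `Γ`, its restriction to `G` along `ι` is
irreducible, and its restriction to `S_n` along `j` contains none of the linear characters
`1 ⊗ ⋯ ⊗ 1 ⊗ sign ⊗ ⋯ ⊗ sign` (`t` factors of each kind) of the Young subgroups with `2 t` factors.
For the character `χ_λ` of `S_n` of the partition `λ` this says that the side of the Durfee square
of `λ` is larger than `t`: the other partitions are those contained in a hook with `t` rows and `t`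
columns (Berele and Regev).

Proof. An identity in the group algebra writes the sum of all permutations whose cycles are the
classes of a colouring in `t` colours as an alternating sum of products of column symmetrizers and
row symmetrizers of Young subgroups; so `X` vanishes on all elements whose component in `S_n` has at
most `t` cycles. The number of the permutations with more than `t` cycles is at most
`n! C(n + k - 1, n) / k ^ (t + 1)`, since a permutation with `m` cycles fixes `k ^ m` colourings in
`k` colours. The orders of the L-functions are the multiplicities of the characters in a class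
function which is bounded by `r`, and Bessel's inequality finishes the proof.
-/

set_option autoImplicit false

open Equiv Pool.Agent.H541R3.ART Pool.Agent.N850.Art Pool.Agent.N850.Dur

/-- (1) Let `E/K` be Galois with group `G ≤ Γ` and let `ζ_E` have order `r` at `s₀`. Let `X` run
through characters of `Γ` as above with pairwise different irreducible restrictions to `G`. Then
`k ^ (t + 1) |G| ∑ (ord L(s, X|_G))² ≤ C(n + k - 1, n) |Γ| r²` for all `k ≥ 1`.

(2) If `(n + 1) r² |Γ| < 2 ^ (t + 1) |G|`, then `L(s, X|_G)` is holomorphic and nonzero at `s₀`. So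
for `Γ = G = S_n` this is the case for all partitions with a Durfee square of side larger than
`2 log₂ r + log₂ (n + 1)`.

(3) For `c > 0` and all large `n`: if `t ≥ c √n` and `r² |Γ| ≤ |G| n ^ (c √n / 3)`, then
`L(s, X|_G)` is holomorphic and nonzero at `s₀`. -/
theorem Pool.Agent.Results.MP_d2121a_nt.DurfeeCharacters.result :
    (∀ (n t k : ℕ), 1 ≤ k →
      ∀ (Γ G : Type) [Group Γ] [Finite Γ] [Group G] [Finite G]
        (j : Perm (Fin n) →* Γ) (ι : G →* Γ), Central j → Function.Injective ι →
      ∀ (s₀ : ℂ) (A : ArtinData G s₀) (r : ℕ),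
        meromorphicOrderAt (A.Lin ⊥ 1) s₀ = (r : WithTop ℤ) →
      ∀ F : Finset (Γ → ℂ), (∀ X ∈ F, Thick j ι t X) →
        (∀ X ∈ F, ∀ Y ∈ F, (∀ g, X (ι g) = Y (ι g)) → X = Y) →
      ∀ m : (Γ → ℂ) → ℤ,
        (∀ X ∈ F, meromorphicOrderAt (A.L fun g => X (ι g)) s₀ = (m X : WithTop ℤ)) →
        k ^ (t + 1) * Nat.card G * ∑ X ∈ F, m X ^ 2
          ≤ (n + k - 1).choose n * Nat.card Γ * r ^ 2) ∧
    (∀ (n t : ℕ) (Γ G : Type) [Group Γ] [Finite Γ] [Group G] [Finite G]
        (j : Perm (Fin n) →* Γ) (ι : G →* Γ), Central j → Function.Injective ι →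
      ∀ (s₀ : ℂ) (A : ArtinData G s₀) (r : ℕ),
        meromorphicOrderAt (A.Lin ⊥ 1) s₀ = (r : WithTop ℤ) →
        (n + 1) * r ^ 2 * Nat.card Γ < 2 ^ (t + 1) * Nat.card G →
      ∀ X : Γ → ℂ, Thick j ι t X → meromorphicOrderAt (A.L fun g => X (ι g)) s₀ = 0) ∧
    (∀ c : ℝ, 0 < c → ∃ N : ℕ, ∀ n ≥ N, ∀ t : ℕ, c * √n ≤ t →
      ∀ (Γ G : Type) [Group Γ] [Finite Γ] [Group G] [Finite G]
        (j : Perm (Fin n) →* Γ) (ι : G →* Γ), Central j → Function.Injective ι →
      ∀ (s₀ : ℂ) (A : ArtinData G s₀) (r : ℕ),
        meromorphicOrderAt (A.Lin ⊥ 1) s₀ = (r : WithTop ℤ) →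
        (r : ℝ) ^ 2 * Nat.card Γ ≤ Nat.card G * (n : ℝ) ^ (c * √n / 3) →
      ∀ X : Γ → ℂ, Thick j ι t X → meromorphicOrderAt (A.L fun g => X (ι g)) s₀ = 0) := by
  refine ⟨?_, ?_, ?_⟩
  · intro n t k hk Γ G _ _ _ _ j ι hj hι s₀ A r hr F hF hinj m hm
    exact thick_orders_le hj hι hk A hr F hF hinj m hm
  · intro n t Γ G _ _ _ _ j ι hj hι s₀ A r hr hlt X hX
    refine thick_order_zero (k := 2) hj hι (by norm_num) A hr hX ?_
    rw [show n + 2 - 1 = n + 1 by omega, Nat.choose_succ_self_right]
    calc (n + 1) * Nat.card Γ * r ^ 2 = (n + 1) * r ^ 2 * Nat.card Γ := by ring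
      _ < _ := hlt
  · intro c hc
    obtain ⟨N, hN⟩ := regime_sqrt' c hc
    refine ⟨N, fun n hn t ht Γ G _ _ _ _ j ι hj hι s₀ A r hr hr2 X hX => ?_⟩
    obtain ⟨k, hk, hlt⟩ := hN n hn t ht
    refine thick_order_zero hj hι hk A hr hX ?_
    have h1 : (0 : ℝ) < Nat.card G := by exact_mod_cast Nat.card_pos
    have h3 : (0 : ℝ) ≤ ((n + k - 1).choose n : ℝ) := by positivity
    have h2 : ((n + k - 1).choose n : ℝ) * (Nat.card Γ : ℝ) * (r : ℝ) ^ 2
        < (k : ℝ) ^ (t + 1) * Nat.card G := by
      calc ((n + k - 1).choose n : ℝ) * (Nat.card Γ : ℝ) * (r : ℝ) ^ 2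
          = ((n + k - 1).choose n : ℝ) * ((r : ℝ) ^ 2 * Nat.card Γ) := by ring
        _ ≤ ((n + k - 1).choose n : ℝ) * (Nat.card G * (n : ℝ) ^ (c * √n / 3)) :=
            mul_le_mul_of_nonneg_left hr2 h3
        _ = (((n + k - 1).choose n : ℝ) * (n : ℝ) ^ (c * √n / 3)) * Nat.card G := by ring
        _ < _ := mul_lt_mul_of_pos_right hlt h1
    exact_mod_cast h2
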