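import Mathlib
import Pool.Agent.N850.Reg.Main
import Pool.Agent.N850.Sub.Main

/-!
# Artin L-functions of symmetric groups: wide regions without zeros and poles

`Pool.Agent.H541R3.ART.Irr G` is the set of irreducible complex characters of the finite group `G`.

`Pool.Agent.H541R3.ART.ArtinData G s₀` is a family of functions with the formal properties of the
Artin L-functions of a Galois extension `E/K` with group `G` near a point `s₀ ≠ 1`: functions
`L χ` for the irreducible characters `χ` of `G` and `Lin H ψ` for the linear characters `ψ` of the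
subgroups `H`, such that `L χ` is meromorphic and not identically zero near `s₀` (Brauer), `Lin H ψ`
has no pole at `s₀` (Artin reciprocity and Hecke), and `Lin H ψ` is the product of the
`L χ ^ ⟨χ|_H, ψ⟩` (induction). In particular `Lin H 1` stands for the Dedekind zeta function of the
fixed field of `H`.

`Pool.Agent.N850.Sub.Ind H ψ φ f`, for a linear character `ψ` of a subgroup `H` of `G` and a
homomorphism `φ : X → G` whose image commutes with `H`, is the class function of `G` which is induced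
from the function `ψ ⊗ f` on `H × X` along `(h, x) ↦ h φ(x)`.

`Pool.Agent.N850.Dur.YoungFree t ω`: the character `ω` of `S_j` contains none of the linear characters
`1 ⊗ ⋯ ⊗ 1 ⊗ sign ⊗ ⋯ ⊗ sign` (`t` factors of each kind) of the Young subgroups with `2 t` factors.
For the irreducible character of a partition this says that the side of its Durfee square is larger
than `t` (Berele and Regev).

The meaning for `S_n`. The irreducible character `χ_λ` of `S_n`, `λ = (n - k, μ)`, is by the
determinantal formula the sum of the `(-1)ⁱ Ind (1 ⊗ χ_ν)`, induced from `S_{n - k + i} × S_{k - i}`,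
over all `i` and all `ν` such that `μ/ν` is a vertical strip with `i` boxes. If the Durfee square of `λ`
has a side larger than `t + 1`, then those of all these `ν` have sides larger than `t`, and hence `χ_λ`
belongs to the span of `Shallow e k t` below. So the theorem says: for all `S_n`-extensions `E/K` and
all `λ` with first row `n - k` and a Durfee square with a side of at least `c √k`, `L(s, χ_λ)` is
holomorphic and nonzero in the region `(1 - Re s) log |d_E| ≤ (n - k)! k ^ (c √k / 7)` (for real `s`, and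
similarly at other heights). This holds for `k = n`, too; then all `λ` with `n` boxes and a large Durfee
square are allowed. In the region of Stark, without zeros and poles except perhaps for one real zero,
the right side is a constant. Nothing is assumed about the orders of the zeros.

Proof. The orders of the L-functions are the multiplicities in a Heilbronn function `Θ` of `G`. The mean
of `Θ(h φ(x)) ψ(h)⁻¹` over `h ∈ H` is a Heilbronn function of `X`, whose absolute value is at most the
order `r` of `Lin H ψ`. Its multiplicities are integers and for a character `f` the multiplicity is at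
most `r` times the mean of `|f|`. A thick character of `S_j` vanishes on all permutations with few
cycles, so the mean of its absolute value is small. The order of the zeta function of the field of `H`
is bounded by Stark's method in the region, and the discriminant of this field is at most the `|H|`-th
root of the discriminant of `E`.
-/

set_option autoImplicit false

namespace Pool.Agent.Results.MP_d2121a_nt.SubfieldRegion

open NumberField Equiv Equiv.Perm Pool.Agent.H541R3.ART Pool.Agent.N850.Dur Pool.Agent.N850.Sub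

/-- The class functions of `G` induced from the characters `ψ ⊗ f` of `H × X`, where `ψ` is a linear
character of the subgroup `H`, `φ : X → G` is a homomorphism from a finite group whose image commutes
with `H`, `f` is the character of a representation of `X`, and the mean of `|f|` is smaller than `1 / r`,
where `r` is the order of the L-function `Lin H ψ` at `s₀`. -/
def Small {G : Type} [Group G] {s₀ : ℂ} (A : ArtinData G s₀) : Set (G → ℂ) :=
  {F | ∃ (r : ℕ) (X : Type) (_ : Group X) (_ : Finite X) (H : Subgroup G) (ψ : H →* ℂˣ)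
    (φ : X →* G) (V : Type) (_ : AddCommGroup V) (_ : Module ℂ V) (_ : FiniteDimensional ℂ V)
    (σ : Representation ℂ X V), (∀ (h : H) (x : X), (h : G) * φ x = φ x * h) ∧
    meromorphicOrderAt (A.Lin H ψ) s₀ = (r : WithTop ℤ) ∧
    (r : ℝ) * ∑ᶠ x : X, ‖σ.character x‖ < Nat.card X ∧ F = Ind H ψ φ σ.character}

section symmetric

variable {n : ℕ} {N G : Type} [Group N] [Group G]

/-- Let `G = S_n × N`. The group of the permutations which fix the first `j` points, as a subgroup of
`G`. If `G` is the Galois group of `E/K`, its field is `E₁(α₁, …, α_j)`, `E₁` the field of `S_n`. -/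
def Fix (e : G ≃* Perm (Fin n) × N) (j : ℕ) : Subgroup G where
  carrier := {g | (e g).2 = 1 ∧ ∀ i : Fin n, (i : ℕ) < j → (e g).1 i = i}
  mul_mem' := by
    rintro a b ⟨ha1, ha2⟩ ⟨hb1, hb2⟩
    refine ⟨by rw [map_mul, Prod.snd_mul, ha1, hb1, one_mul], fun i hi => ?_⟩
    rw [map_mul, Prod.fst_mul, Perm.mul_apply, hb2 i hi, ha2 i hi]
  one_mem' := ⟨by rw [map_one]; rfl, fun i _ => by rw [map_one]; rfl⟩
  inv_mem' := by
    rintro a ⟨ha1, ha2⟩
    refine ⟨by rw [map_inv, Prod.snd_inv, ha1, inv_one], fun i hi => ?_⟩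
    rw [map_inv, Prod.fst_inv, Perm.inv_eq_iff_eq, ha2 i hi]

/-- Let `G = S_n × N`. The subgroup `S_j × N`, where `S_j` is the group of the permutations of the first
`j` points. -/
noncomputable def sub (e : G ≃* Perm (Fin n) × N) {j : ℕ} (hj : j ≤ n) :
    Perm (Fin j) × N →* G :=
  e.symm.toMonoidHom.comp
    (MonoidHom.prodMap (viaEmbeddingHom (Fin.castLEEmb hj)) (MonoidHom.id N))

/-- Let `G = S_n × N`. The characters of `G` induced from the characters `1 ⊗ ω ⊗ κ` of
`S_{n - j} × S_j × N` for `j ≤ k`, where `ω` and `κ` are irreducible and `ω` is `YoungFree t`. -/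
def Shallow (e : G ≃* Perm (Fin n) × N) (k t : ℕ) : Set (G → ℂ) :=
  {F | ∃ (j : ℕ) (hj : j ≤ n) (ω : Perm (Fin j) → ℂ) (κ : N → ℂ), j ≤ k ∧
    ω ∈ Irr (Perm (Fin j)) ∧ YoungFree t ω ∧ κ ∈ Irr N ∧
    F = Ind (Fix e j) 1 (sub e hj) fun x => ω x.1 * κ x.2}

end symmetric

/-- `Z` is the continuation of the Dedekind zeta function of `F` to all `s ≠ 1`. -/
def IsZeta (F : Type) [Field F] [NumberField F] (Z : ℂ → ℂ) : Prop :=
  (∀ s : ℂ, s ≠ 1 → DifferentiableAt ℂ Z s) ∧ ∀ s : ℂ, 1 < s.re → Z s = dedekindZeta F s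

/-- `log |d_F|` -/
noncomputable def logDisc (F : Type) [Field F] [NumberField F] : ℝ :=
  Real.log (((discr F).natAbs : ℕ) : ℝ)

/-- The region of `m` and `x`: the points `s ≠ 1` with `0 < Re s ≤ 1` and
`(1 - Re s) log |d_E| ≤ 2 m x` if `s` is real,
`(1 - Re s) ((log |d_E| + [E : ℚ] log (1 + |Im s|) / 2) / m + 1 / (2 |Im s|)) ≤ x` otherwise. -/
structure InRegion (E : Type) [Field E] [NumberField E] (m : ℕ) (x : ℝ) (s : ℂ) : Prop where
  ne_one : s ≠ 1
  pos : 0 < s.re
  le_one : s.re ≤ 1
  real : s.im = 0 → (1 - s.re) * logDisc E ≤ 2 * m * x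
  nonreal : s.im ≠ 0 → (1 - s.re) *
    ((logDisc E + Module.finrank ℚ E / 2 * Real.log (1 + |s.im|)) / m + 1 / (2 * |s.im|)) ≤ x

/-- For all subgroups `H` of the Galois group of `E/K`, the function `Lin H 1` has the same order at
`s₀` as the zeta function of the fixed field of `H`. -/
def HasZetas {K E : Type} [Field K] [NumberField K] [Field E] [NumberField E] [Algebra K E]
    {s₀ : ℂ} (A : ArtinData (E ≃ₐ[K] E) s₀) : Prop :=
  ∀ H : Subgroup (E ≃ₐ[K] E), ∃ Z : ℂ → ℂ, IsZeta (IntermediateField.fixedField H) Z ∧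
    meromorphicOrderAt (A.Lin H 1) s₀ = meromorphicOrderAt Z s₀

lemma logDisc_nonneg (F : Type) [Field F] [NumberField F] : 0 ≤ logDisc F :=
  Real.log_natCast_nonneg _

lemma logDisc_mul_le (F E : Type) [Field F] [NumberField F] [Field E] [NumberField E]
    [Algebra F E] : Module.finrank F E * logDisc F ≤ logDisc E := by
  have h1 := natAbs_discr_eq_absNorm_differentIdeal_mul_natAbs_discr_pow F (𝓞 F) E (𝓞 E)
  have h2 : (discr E).natAbs ≠ 0 := Int.natAbs_ne_zero.mpr (discr_ne_zero E)
  have h3 : (discr F).natAbs ^ Module.finrank F E ≤ (discr E).natAbs :=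
    Nat.le_of_dvd (Nat.pos_of_ne_zero h2) (h1 ▸ Dvd.intro_left _ rfl)
  have h4 : (0 : ℝ) < ((discr F).natAbs : ℝ) := by
    exact_mod_cast Nat.pos_of_ne_zero (Int.natAbs_ne_zero.mpr (discr_ne_zero F))
  rw [logDisc, logDisc, ← Real.log_pow]
  refine Real.log_le_log (by positivity) ?_
  exact_mod_cast h3

section fields

variable {K E : Type} [Field K] [NumberField K] [Field E] [NumberField E] [Algebra K E]
  [IsGalois K E]

lemma one_lt_finrank {H : Subgroup (E ≃ₐ[K] E)} (hH : H ≠ ⊤) :
    1 < Module.finrank ℚ (IntermediateField.fixedField H) := by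
  by_contra hcon
  have h0 : 0 < Module.finrank ℚ (IntermediateField.fixedField H) := Module.finrank_pos
  have h1 : Module.finrank ℚ (IntermediateField.fixedField H) = 1 := by omega
  have h2 : Module.finrank ℚ (IntermediateField.fixedField H) *
      Module.finrank (IntermediateField.fixedField H) E = Module.finrank ℚ E :=
    Module.finrank_mul_finrank ℚ (IntermediateField.fixedField H) E
  have h3 : Module.finrank (IntermediateField.fixedField H) E = Nat.card H :=
    IntermediateField.finrank_fixedField_eq_card H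
  have h4 : Module.finrank ℚ K * Module.finrank K E = Module.finrank ℚ E :=
    Module.finrank_mul_finrank ℚ K E
  have h5 : Nat.card (E ≃ₐ[K] E) = Module.finrank K E := IsGalois.card_aut_eq_finrank K E
  have h6 : 0 < Module.finrank ℚ K := Module.finrank_pos
  refine hH (Subgroup.eq_top_of_le_card H ?_)
  rw [h5, ← h3]
  rw [h1, one_mul] at h2
  rw [h2, ← h4]
  exact Nat.le_mul_of_pos_left _ h6

lemma order_le {s₀ : ℂ} {A : ArtinData (E ≃ₐ[K] E) s₀} (hA : HasZetas A)
    {H : Subgroup (E ≃ₐ[K] E)} (hH : H ≠ ⊤) {m : ℕ} (hm1 : 1 ≤ m) (hm : m ≤ Nat.card H) {x : ℝ}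
    (hs : InRegion E m x s₀) :
    ∃ r : ℕ, meromorphicOrderAt (A.Lin H 1) s₀ = (r : WithTop ℤ) ∧ (r : ℝ) ≤ (1 + √x) ^ 2 := by
  obtain ⟨Z, hZ, h1⟩ := hA H
  obtain ⟨r, hr⟩ := Pool.Agent.N850.Sub.exists_ord A H 1
  have h2 : Module.finrank ℚ (IntermediateField.fixedField H) *
      Module.finrank (IntermediateField.fixedField H) E = Module.finrank ℚ E :=
    Module.finrank_mul_finrank ℚ (IntermediateField.fixedField H) E
  have h3 : Module.finrank (IntermediateField.fixedField H) E = Nat.card H :=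
    IntermediateField.finrank_fixedField_eq_card H
  have h4 := logDisc_mul_le (IntermediateField.fixedField H) E
  have h5 := logDisc_nonneg (IntermediateField.fixedField H)
  have hm0 : (0 : ℝ) < m := by exact_mod_cast hm1
  have hmc : (m : ℝ) ≤ (Nat.card H : ℝ) := by exact_mod_cast hm
  rw [h3] at h4 h2
  have h6 : logDisc (IntermediateField.fixedField H) ≤ logDisc E / m := by
    rw [le_div_iff₀ hm0]
    nlinarith
  have h7 : (Module.finrank ℚ (IntermediateField.fixedField H) : ℝ)
      ≤ (Module.finrank ℚ E : ℝ) / m := by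
    rw [le_div_iff₀ hm0, ← h2]
    push_cast
    gcongr
  have hσ : 0 ≤ 1 - s₀.re := by linarith [hs.le_one]
  refine ⟨r, hr, Pool.Agent.N850.Reg.order_le (one_lt_finrank hH) hZ hs.ne_one hs.pos hs.le_one
    ?_ ?_ (by rw [← h1, hr])⟩
  · intro h0
    change (1 - s₀.re) * (logDisc (IntermediateField.fixedField H) / 2) ≤ x
    calc (1 - s₀.re) * (logDisc (IntermediateField.fixedField H) / 2)
        ≤ (1 - s₀.re) * ((logDisc E / m) / 2) := by gcongr
      _ = ((1 - s₀.re) * logDisc E) / (2 * m) := by field_simp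
      _ ≤ (2 * m * x) / (2 * m) := by
          have := hs.real h0
          gcongr
      _ = x := by field_simp
  · intro h0
    have hl : 0 ≤ Real.log (1 + |s₀.im|) := Real.log_nonneg (by linarith [abs_nonneg s₀.im])
    change (1 - s₀.re) * (logDisc (IntermediateField.fixedField H)
      + Module.finrank ℚ (IntermediateField.fixedField H) / 2 * Real.log (1 + |s₀.im|)
      + 1 / (2 * |s₀.im|)) ≤ x
    refine le_trans ?_ (hs.nonreal h0)
    refine mul_le_mul_of_nonneg_left ?_ hσ
    have h8 : (Module.finrank ℚ (IntermediateField.fixedField H) : ℝ) / 2 *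
        Real.log (1 + |s₀.im|) ≤ ((Module.finrank ℚ E : ℝ) / m) / 2 * Real.log (1 + |s₀.im|) := by
      gcongr
    have h9 : (logDisc E + Module.finrank ℚ E / 2 * Real.log (1 + |s₀.im|)) / m
        = logDisc E / m + ((Module.finrank ℚ E : ℝ) / m) / 2 * Real.log (1 + |s₀.im|) := by
      field_simp
    rw [h9]
    linarith

end fields

/-- the general part -/
lemma order_zero {G : Type} [Group G] [Finite G] {s₀ : ℂ} (A : ArtinData G s₀) {χ : G → ℂ}
    (hχ : χ ∈ Irr G) (hspan : χ ∈ Submodule.span ℂ (Small A)) :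
    meromorphicOrderAt (A.L χ) s₀ = 0 := by
  classical
  have : Fintype G := Fintype.ofFinite G
  have h0 : ∀ F ∈ Submodule.span ℂ (Small A), ∑ g : G, theta A.ord g * F g⁻¹ = 0 := by
    intro F hF
    induction hF using Submodule.span_induction with
    | mem F hF =>
      obtain ⟨r, X, _, _, H, ψ, φ, V, _, _, _, σ, hc, hr, hlt, rfl⟩ := hF
      exact pair_Ind_zero A hc σ hr hlt
    | zero => simp
    | add F F' _ _ h h' =>
      simp only [Pi.add_apply, mul_add, Finset.sum_add_distrib, h, h', add_zero]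
    | smul c F _ h =>
      simp only [Pi.smul_apply, smul_eq_mul, mul_left_comm _ c, ← Finset.mul_sum, h, mul_zero]
  have h1 := h0 χ hspan
  have h2 := A.order_eq hχ (k := 0) (by rw [h1]; simp)
  rw [h2]; rfl

/-- there is no `YoungFree` character of `S_0` -/
lemma not_youngFree_zero {t : ℕ} {ω : Perm (Fin 0) → ℂ} (hω : ω ∈ Irr (Perm (Fin 0)))
    (h : YoungFree t ω) : False := by
  have h1 : ∀ g, ω g = 0 := fun g => h.zero hω (Finset.mem_filter.mpr ⟨Finset.mem_univ _, by
    have : ncyc g = 0 := by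
      rw [ncyc, Finset.card_eq_zero, Finset.image_eq_empty]
      exact Finset.univ_eq_empty
    omega⟩)
  have h2 := pair_self hω
  rw [Finset.sum_eq_zero fun g _ => by rw [h1 g, zero_mul]] at h2
  have h3 : (Nat.card (Perm (Fin 0)) : ℂ) ≠ 0 := by exact_mod_cast Nat.card_pos.ne'
  exact h3 h2.symm

section symmetric

variable {n : ℕ} {N G : Type} [Group N] [Group G]

lemma sub_comm (e : G ≃* Perm (Fin n) × N) {j : ℕ} (hj : j ≤ n) (h : Fix e j)
    (x : Perm (Fin j) × N) : (h : G) * sub e hj x = sub e hj x * h := by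
  obtain ⟨h, h1, h2⟩ := h
  obtain ⟨σ, y⟩ := x
  apply e.injective
  have hs : e (sub e hj (σ, y)) = (σ.viaEmbedding (Fin.castLEEmb hj), y) := by
    rw [sub, MonoidHom.comp_apply]
    exact e.apply_symm_apply _
  rw [map_mul, map_mul, hs]
  refine Prod.ext ?_ ?_
  · rw [Prod.fst_mul, Prod.fst_mul]
    ext i : 1
    rw [Perm.mul_apply, Perm.mul_apply]
    by_cases hi : (i : ℕ) < j
    · have hi' : i = Fin.castLEEmb hj ⟨i, hi⟩ := rfl
      rw [h2 i hi]
      rw [hi', viaEmbedding_apply]
      exact h2 _ (σ ⟨i, hi⟩).2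
    · have hr : ∀ l : Fin n, ¬ (l : ℕ) < j → l ∉ Set.range (Fin.castLEEmb hj) := by
        rintro l hl ⟨m, rfl⟩
        exact hl m.2
      rw [viaEmbedding_apply_of_notMem _ _ _ (hr i hi)]
      have h3 : ¬ (((e h).1 i : Fin n) : ℕ) < j := by
        intro h4
        have h5 := h2 _ h4
        have h6 : (e h).1 i = i := (e h).1.injective h5
        rw [h6] at h4
        exact hi h4
      rw [viaEmbedding_apply_of_notMem _ _ _ (hr _ h3)]
  · rw [Prod.snd_mul, Prod.snd_mul, h1, one_mul, mul_one]

lemma choose_mono {j k a : ℕ} (hjk : j ≤ k) (ha : 1 ≤ a) :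
    (j + a - 1).choose j ≤ (k + a - 1).choose k := by
  have h1 : (j + a - 1).choose j = (j + a - 1).choose (a - 1) :=
    Nat.choose_symm_of_eq_add (by omega)
  have h2 : (k + a - 1).choose k = (k + a - 1).choose (a - 1) :=
    Nat.choose_symm_of_eq_add (by omega)
  rw [h1, h2]
  exact Nat.choose_le_choose _ (by omega)

lemma card_Fix [Finite G] (e : G ≃* Perm (Fin n) × N) {j k : ℕ} (hjk : j ≤ k) :
    (n - k).factorial ≤ Nat.card (Fix e j) := by
  classical
  rcases Nat.lt_or_ge n k with h | h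
  · rw [Nat.sub_eq_zero_of_le h.le, Nat.factorial_zero]
    exact Nat.card_pos
  let ι : Fin (n - k) ↪ Fin n := ⟨fun i => ⟨k + i, by omega⟩, fun a b hab => by
    have : k + (a : ℕ) = k + b := congrArg Fin.val hab
    exact Fin.ext (by omega)⟩
  have hι : ∀ i : Fin n, (i : ℕ) < j → i ∉ Set.range ι := by
    rintro i hi ⟨l, rfl⟩
    have : ((ι l : Fin n) : ℕ) = k + l := rfl
    omega
  let f : Perm (Fin (n - k)) → Fix e j := fun g => ⟨e.symm (g.viaEmbedding ι, 1), by
    change (e (e.symm (g.viaEmbedding ι, 1))).2 = 1 ∧ ∀ i : Fin n, (i : ℕ) < j →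
      (e (e.symm (g.viaEmbedding ι, 1))).1 i = i
    rw [e.apply_symm_apply]
    exact ⟨rfl, fun i hi => viaEmbedding_apply_of_notMem _ _ _ (hι i hi)⟩⟩
  have hf : Function.Injective f := by
    intro a b hab
    have h1 : (a.viaEmbedding ι, (1 : N)) = (b.viaEmbedding ι, 1) :=
      e.symm.injective (congrArg Subtype.val hab)
    exact viaEmbeddingHom_injective ι (Prod.ext_iff.mp h1).1
  have h1 := Nat.card_le_card_of_injective f hf
  rwa [Nat.card_eq_fintype_card, Fintype.card_perm, Fintype.card_fin] at h1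

lemma Fix_ne_top (e : G ≃* Perm (Fin n) × N) (hn : 2 ≤ n) {j : ℕ} (hj : 1 ≤ j) :
    Fix e j ≠ ⊤ := by
  intro h
  have h1 : e.symm (swap (⟨0, by omega⟩ : Fin n) ⟨1, by omega⟩, 1) ∈ Fix e j := by
    rw [h]; exact Subgroup.mem_top _
  have h2 := h1.2 ⟨0, by omega⟩ (by change 0 < j; omega)
  rw [e.apply_symm_apply] at h2
  rw [swap_apply_left] at h2
  have := congrArg Fin.val h2
  simp at this

end symmetric

/-- the case of the symmetric group -/
lemma shallow_zero {n : ℕ} (hn : 2 ≤ n) {k t a : ℕ} (ha : 1 ≤ a)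
    {x : ℝ} (hx : ((k + a - 1).choose k : ℝ) * (1 + √x) ^ 4 < (a : ℝ) ^ (t + 1))
    {K E N : Type} [Field K] [NumberField K] [Field E] [NumberField E] [Algebra K E]
    [IsGalois K E] [Group N] [Finite N] (e : (E ≃ₐ[K] E) ≃* Perm (Fin n) × N) {s₀ : ℂ}
    (A : ArtinData (E ≃ₐ[K] E) s₀) (hA : HasZetas A) (hs : InRegion E (n - k).factorial x s₀)
    {χ : (E ≃ₐ[K] E) → ℂ} (hχ : χ ∈ Irr (E ≃ₐ[K] E))
    (hspan : χ ∈ Submodule.span ℂ (Shallow e k t)) :
    meromorphicOrderAt (A.L χ) s₀ = 0 := by
  refine order_zero A hχ (Submodule.span_mono ?_ hspan)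
  rintro _ ⟨j, hj, ω, κ, hjk, hω, hy, hκ, rfl⟩
  rcases Nat.eq_zero_or_pos j with h0 | h0
  · subst h0
    exact (not_youngFree_zero hω hy).elim
  obtain ⟨r, hr, hrx⟩ := order_le hA (Fix_ne_top e hn h0) (Nat.factorial_pos _)
    (card_Fix e hjk) hs
  obtain ⟨V, i1, i2, i3, σ, hσ⟩ := exists_tensor hω hκ
  refine ⟨r, Perm (Fin j) × N, inferInstance, inferInstance, Fix e j, 1, sub e hj, V, i1, i2, i3, σ,
    sub_comm e hj, hr, ?_, by rw [hσ]⟩
  rw [← hσ]
  refine mean_thick hω hy hκ ha ?_
  have h1 : ((j + a - 1).choose j : ℝ) * (r : ℝ) ^ 2 < (a : ℝ) ^ (t + 1) := by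
    refine lt_of_le_of_lt ?_ hx
    have h2 : (r : ℝ) ^ 2 ≤ (1 + √x) ^ 4 := by
      calc (r : ℝ) ^ 2 ≤ ((1 + √x) ^ 2) ^ 2 := by gcongr
        _ = (1 + √x) ^ 4 := by ring
    have h3 : ((j + a - 1).choose j : ℝ) ≤ ((k + a - 1).choose k : ℝ) := by
      exact_mod_cast choose_mono hjk ha
    gcongr
  exact_mod_cast h1

/-- (1) Let `E/K` be Galois with group `G`. If an irreducible character `χ` of `G` belongs to the
complex span of the class functions in `Small A`, then `L(s, χ)` is holomorphic and nonzero at `s₀`.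

(2) Let `E/K` be Galois with group `S_n × N`, `n ≥ 2`, and `C(k + a - 1, k) (1 + √x) ^ 4 < a ^ (t + 1)`,
`a ≥ 1`. Then for all irreducible `χ` in the span of `Shallow e k t`, `L(s, χ)` is holomorphic and
nonzero at all points of the region of `m = (n - k)!` and `x`.

(3) For every `c > 0` there is `k₀` such that (2) holds for all `k ≥ k₀`, `t ≥ c √k` and
`x = k ^ (c √k / 7)`, whatever `n`, `N` and the fields are. -/
theorem result :
    (∀ (G : Type) [Group G] [Finite G] (s₀ : ℂ) (A : ArtinData G s₀), ∀ χ ∈ Irr G,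
      χ ∈ Submodule.span ℂ (Small A) → meromorphicOrderAt (A.L χ) s₀ = 0) ∧
    (∀ (n k t a : ℕ), 2 ≤ n → 1 ≤ a → ∀ x : ℝ,
      ((k + a - 1).choose k : ℝ) * (1 + √x) ^ 4 < (a : ℝ) ^ (t + 1) →
      ∀ (K E N : Type) [Field K] [NumberField K] [Field E] [NumberField E] [Algebra K E]
        [IsGalois K E] [Group N] [Finite N] (e : (E ≃ₐ[K] E) ≃* Perm (Fin n) × N) (s₀ : ℂ)
        (A : ArtinData (E ≃ₐ[K] E) s₀), HasZetas A → InRegion E (n - k).factorial x s₀ →
      ∀ χ ∈ Irr (E ≃ₐ[K] E), χ ∈ Submodule.span ℂ (Shallow e k t) →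
        meromorphicOrderAt (A.L χ) s₀ = 0) ∧
    (∀ c : ℝ, 0 < c → ∃ k₀ : ℕ, ∀ k ≥ k₀, ∀ t : ℕ, c * √k ≤ t → ∀ n : ℕ, 2 ≤ n →
      ∀ (K E N : Type) [Field K] [NumberField K] [Field E] [NumberField E] [Algebra K E]
        [IsGalois K E] [Group N] [Finite N] (e : (E ≃ₐ[K] E) ≃* Perm (Fin n) × N) (s₀ : ℂ)
        (A : ArtinData (E ≃ₐ[K] E) s₀), HasZetas A →
      InRegion E (n - k).factorial ((k : ℝ) ^ (c * √k / 7)) s₀ →
      ∀ χ ∈ Irr (E ≃ₐ[K] E), χ ∈ Submodule.span ℂ (Shallow e k t) →
        meromorphicOrderAt (A.L χ) s₀ = 0) := by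
  refine ⟨?_, ?_, ?_⟩
  · intro G _ _ s₀ A χ hχ hspan
    exact order_zero A hχ hspan
  · intro n k t a hn ha x hx K E N _ _ _ _ _ _ _ _ e s₀ A hA hs χ hχ hspan
    exact shallow_zero hn ha hx e A hA hs hχ hspan
  · intro c hc
    obtain ⟨K, hK⟩ := regime_sqrt' c hc
    refine ⟨max K (max 2 ⌈(84 / c) ^ 2⌉₊), fun n hn t ht m hm L E N _ _ _ _ _ _ _ _ e s₀ A hA hs χ
      hχ hspan => ?_⟩
    have hnN : K ≤ n := le_trans (le_max_left _ _) hn
    have hn2 : 2 ≤ n := le_trans (le_trans (le_max_left _ _) (le_max_right _ _)) hn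
    have hnc : (84 / c) ^ 2 ≤ (n : ℝ) :=
      (Nat.le_ceil _).trans (by exact_mod_cast le_trans (le_trans (le_max_right _ _) (le_max_right _ _)) hn)
    obtain ⟨a, ha, hlt⟩ := hK n hnN t ht
    refine shallow_zero hm ha ?_ e A hA hs hχ hspan
    refine lt_of_le_of_lt ?_ hlt
    refine mul_le_mul_of_nonneg_left ?_ (by positivity)
    have hn1 : (1 : ℝ) ≤ n := by exact_mod_cast (by omega : 1 ≤ n)
    have hn2' : (2 : ℝ) ≤ n := by exact_mod_cast hn2
    have hc5 : 4 ≤ c * √n / 21 := by
      have h1 : 84 / c ≤ √n := Real.le_sqrt_of_sq_le hnc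
      rw [div_le_iff₀ hc] at h1
      linarith
    set y : ℝ := (n : ℝ) ^ (c * √n / 7) with hy
    have hy1 : 1 ≤ y := Real.one_le_rpow hn1 (by positivity)
    have hsq : √y * √y = y := Real.mul_self_sqrt (by linarith)
    have hsy : 1 ≤ √y := by
      rw [← Real.sqrt_one]
      exact Real.sqrt_le_sqrt hy1
    have h4 : (1 + √y) ^ 4 ≤ 16 * y ^ 2 := by
      calc (1 + √y) ^ 4 ≤ (2 * √y) ^ 4 := by
            have : 1 + √y ≤ 2 * √y := by linarith
            gcongr
        _ = 16 * (√y * √y) ^ 2 := by ring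
        _ = 16 * y ^ 2 := by rw [hsq]
    refine h4.trans ?_
    have h6 : (n : ℝ) ^ (c * √n / 3) = (n : ℝ) ^ (c * √n / 21) * y ^ 2 := by
      rw [hy, ← Real.rpow_natCast, ← Real.rpow_mul (by linarith), ← Real.rpow_add (by linarith)]
      congr 1
      push_cast
      ring
    rw [h6]
    have h7 : (16 : ℝ) ≤ (n : ℝ) ^ (c * √n / 21) := by
      calc (16 : ℝ) = (2 : ℝ) ^ (4 : ℝ) := by norm_num
        _ ≤ (n : ℝ) ^ (4 : ℝ) := by gcongr
        _ ≤ (n : ℝ) ^ (c * √n / 21) := Real.rpow_le_rpow_of_exponent_le hn1 hc5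
    gcongr

end Pool.Agent.Results.MP_d2121a_nt.SubfieldRegion
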